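import Pool.Agent.Q118.TypedRamsey
set_option autoImplicit false
open Finset
open scoped Classical

/-!
For all `k ≥ l ≥ 3` there is a graph `G` with `G ↛ (K_k, K_l)` and `G → (K_{k-1}, K_{k-1}, K_l)`.
-/

namespace Pool.Agent.Results.MP_6ce170_co.ThreeColour

open Pool.Agent.Q118.Partite Pool.Agent.Q118.TypedRamsey

/-- The Ramsey property of a large complete graph with the row types, for `(k-1, k-1, k)`. -/
theorem stage_eq {k : ℕ} (hk : 3 ≤ k) : ∃ M N : ℕ, 0 < M ∧ 0 < N ∧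
    ∀ χ : Sym2 (Fin M × Fin N) → Fin 3, ∃ i, ∃ B ∈ Free (tau2 (Λ := Fin M) (X := Fin N)) k,
      B.card = (![k - 1, k - 1, k] : Fin 3 → ℕ) i ∧ Mono χ i B := by
  obtain ⟨M, hM⟩ := ramsey' (![k - 1, k - 1, 2] : Fin 3 → ℕ)
  obtain ⟨N, hN⟩ := ramsey' (![k - 1, k - 1, k * (M + 1) ^ 3 + (M + 1)] : Fin 3 → ℕ)
  refine ⟨M + 1, N + 1, by omega, by omega, fun χ => ?_⟩
  by_contra hno
  have hno' : ∀ i : Fin 3, ∀ B ∈ Free (tau2 (Λ := Fin (M + 1)) (X := Fin (N + 1))) k,
      B.card = (![k - 1, k - 1, k] : Fin 3 → ℕ) i → ¬ Mono χ i B :=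
    fun i B hB hc hm => hno ⟨i, B, hB, hc, hm⟩
  have hrow : ∀ a : Fin (M + 1), ∃ S : Finset (Fin (M + 1) × Fin (N + 1)), (∀ u ∈ S, u.1 = a) ∧
      S.card = k * (M + 1) ^ 3 + (M + 1) ∧ Mono χ 2 S := by
    intro a
    obtain ⟨i, S, hS, hSc, hSm⟩ := hN _ χ (univ.image fun n : Fin (N + 1) => (a, n)) (by
      rw [card_image_of_injective _ (fun n n' h => (Prod.mk.inj h).2), card_univ, Fintype.card_fin]
      omega)
    have hSa : ∀ u ∈ S, u.1 = a := fun u hu => by
      have := hS hu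
      rw [mem_image] at this
      obtain ⟨n, -, rfl⟩ := this
      rfl
    fin_cases i
    · exact absurd hSm (hno' 0 S (free_of_card_lt _ (by rw [hSc]; simp; omega)) hSc)
    · exact absurd hSm (hno' 1 S (free_of_card_lt _ (by rw [hSc]; simp; omega)) hSc)
    · exact ⟨S, hSa, hSc, hSm⟩
  choose Q hQ1 hQ2 hQ3 using hrow
  obtain ⟨v, hv1, hv2⟩ := transversal χ 2 k univ Q (by
    intro j _
    rw [hQ2, card_univ, Fintype.card_fin]) (by
    intro a _ b _ hab w hw w' _ _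
    by_contra hcon
    push Not at hcon
    obtain ⟨T, hT, hTc⟩ := exists_subset_card_eq (show k - 1 ≤
      ((Q a).filter fun u => χ s(u, w) = 2 ∧ χ s(u, w') = 2).card from by omega)
    have hTa : ∀ u ∈ T, u.1 = a := fun u hu => hQ1 a u (mem_filter.1 (hT hu)).1
    have hwa : w.1 ≠ a := by rw [hQ1 b w hw]; exact hab.symm
    have hwT : w ∉ T := fun h => hwa (hTa w h)
    refine hno' 2 (insert w T) (free2_one hk hTa hTc hwa) (by
      rw [card_insert_of_notMem hwT, hTc]; simp; omega) ?_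
    intro x hx y hy hxy
    rw [mem_insert] at hx hy
    rcases hx with rfl | hx <;> rcases hy with rfl | hy
    · exact absurd rfl hxy
    · rw [Sym2.eq_swap]
      exact (mem_filter.1 (hT hy)).2.1
    · exact (mem_filter.1 (hT hx)).2.1
    · exact hQ3 a x (mem_filter.1 (hT hx)).1 y (mem_filter.1 (hT hy)).1 hxy)
  have hvinj : Function.Injective v := by
    intro a b hab
    rw [← hQ1 a _ (hv1 a (mem_univ a)), ← hQ1 b _ (hv1 b (mem_univ b)), hab]
  obtain ⟨i, S, hS, hSc, hSm⟩ := hM _ χ (univ.image v) (by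
    rw [card_image_of_injective _ hvinj, card_univ, Fintype.card_fin]
    omega)
  fin_cases i
  · exact hno' 0 S (free_of_card_lt _ (by rw [hSc]; simp; omega)) hSc hSm
  · exact hno' 1 S (free_of_card_lt _ (by rw [hSc]; simp; omega)) hSc hSm
  · obtain ⟨x, hx, y, hy, hxy⟩ := one_lt_card.1 (show 1 < S.card by rw [hSc]; simp)
    have h1 := hSm x hx y hy hxy
    have hx' := hS hx
    have hy' := hS hy
    rw [mem_image] at hx' hy'
    obtain ⟨a, -, rfl⟩ := hx'
    obtain ⟨b, -, rfl⟩ := hy'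
    exact hv2 a (mem_univ a) b (mem_univ b) (fun e => hxy (by rw [e])) h1

/-- For all `k ≥ l ≥ 3` there is a finite graph `G` with `G ↛ (K_k, K_l)` and
`G → (K_{k-1}, K_{k-1}, K_l)`. -/
theorem result : ∀ k l : ℕ, 3 ≤ l → l ≤ k →
    ∃ (V : Type) (_ : Finite V) (G : SimpleGraph V),
      ¬ Arrow G (![k, l] : Fin 2 → ℕ) ∧ Arrow G (![k - 1, k - 1, l] : Fin 3 → ℕ) := by
  intro k l hl hlk
  rcases eq_or_lt_of_le hlk with rfl | hlt
  · -- the diagonal case
    obtain ⟨M, N, -, -, h⟩ := stage_eq hl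
    obtain ⟨V, hV, G, ⟨c, hc⟩, hG⟩ := assemble (tau2 (Λ := Fin M) (X := Fin N)) hl
      (by norm_num) (![l - 1, l - 1, l] : Fin 3 → ℕ) h
    refine ⟨V, hV, G, ?_, hG⟩
    intro harr
    obtain ⟨i, S, hS, hSm⟩ := harr c
    refine hc i ⟨S, ?_, hSm⟩
    rw [hS]
    fin_cases i <;> rfl
  · -- `l < k`
    obtain ⟨N, hN⟩ := ramsey' (![k - 1, k - 1, l] : Fin 3 → ℕ)
    obtain ⟨V, hV, G, ⟨c, hc⟩, hG⟩ := assemble (I := Fin N) (m := 1) (fun _ => 0)
      (show 3 ≤ k by omega) (by norm_num) (![k - 1, k - 1, l] : Fin 3 → ℕ) (by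
        intro χ
        obtain ⟨i, S, -, hSc, hSm⟩ := hN _ χ univ (by simp)
        refine ⟨i, S, free_of_card_lt _ ?_, hSc, hSm⟩
        rw [hSc]
        fin_cases i
        · simp; omega
        · simp; omega
        · simpa using hlt)
    refine ⟨V, hV, G, ?_, hG⟩
    intro harr
    obtain ⟨i, S, hS, hSm⟩ := harr fun _ => 0
    fin_cases i
    · refine hc 0 ⟨S, hS, fun u hu v hv huv => ⟨(hSm u hu v hv huv).1, Subsingleton.elim _ _⟩⟩
    · have h1 : S.card = l := hS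
      obtain ⟨x, hx, y, hy, hxy⟩ := one_lt_card.1 (show 1 < S.card by omega)
      exact absurd (hSm x hx y hy hxy).2 (by decide)

end Pool.Agent.Results.MP_6ce170_co.ThreeColour
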